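import Mathlib

set_option autoImplicit false
open Polynomial

namespace Pool.Agent.N732.Stern

/-- The Stern polynomials `B_n(t)`: `B_0 = 0`, `B_1 = 1`, and for `n ≥ 1`
`B_{2n} = t B_n`, `B_{2n+1} = B_n + B_{n+1}`. -/
noncomputable def sternPoly : ℕ → ℤ[X]
  | 0 => 0
  | 1 => 1
  | (n + 2) =>
    if _h : (n + 2) % 2 = 0 then X * sternPoly ((n + 2) / 2)
    else sternPoly ((n + 2) / 2) + sternPoly ((n + 2) / 2 + 1)
  decreasing_by all_goals omega

theorem stern_zero : sternPoly 0 = 0 := by rw [sternPoly]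

theorem stern_one : sternPoly 1 = 1 := by rw [sternPoly]

theorem stern_even (n : ℕ) (hn : 1 ≤ n) : sternPoly (2 * n) = X * sternPoly n := by
  obtain ⟨k, hk⟩ : ∃ k, 2 * n = k + 2 := ⟨2 * n - 2, by omega⟩
  have h2 : (k + 2) / 2 = n := by omega
  rw [hk, sternPoly, dif_pos (by omega), h2]

theorem stern_odd (n : ℕ) (hn : 1 ≤ n) :
    sternPoly (2 * n + 1) = sternPoly n + sternPoly (n + 1) := by
  obtain ⟨k, hk⟩ : ∃ k, 2 * n + 1 = k + 2 := ⟨2 * n - 1, by omega⟩
  have h2 : (k + 2) / 2 = n := by omega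
  rw [hk, sternPoly, dif_neg (by omega), h2]

end Pool.Agent.N732.Stern
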