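import Mathlib

set_option autoImplicit false

namespace Pool.Agent.N732.Stern

/-- the invariant conditions on the ratio `r = B_{n+1}(z)/B_n(z)` -/
structure Good (z : ℂ) (M : ℝ) (r : ℂ) : Prop where
  re : 0 ≤ r.re
  le : ‖r‖ ≤ M
  le' : ‖r⁻¹‖ ≤ M
  H : 0 ≤ (1 + r.re) * z.re + r.im * z.im
  H' : 0 ≤ (1 + (r⁻¹).re) * z.re + (r⁻¹).im * z.im

theorem Good.inv {z : ℂ} {M : ℝ} {r : ℂ} (h : Good z M r) : Good z M r⁻¹ := by
  refine ⟨?_, h.le', ?_, h.H', ?_⟩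
  · rw [Complex.inv_re]
    exact div_nonneg h.re (Complex.normSq_nonneg _)
  · rw [inv_inv]; exact h.le
  · rw [inv_inv]; exact h.H

theorem Good.step {z : ℂ} {M : ℝ} {r : ℂ} (h : Good z M r)
    (hx : 0 < z.re) (hxy : z.im ^ 2 ≤ z.re ^ 2) (hm : 1 < ‖z‖) (hM : ‖z‖ ≤ M)
    (hM' : 1 ≤ M * (‖z‖ - 1))
    (hb : 2 * M * z.re * |z.im| ≤ z.re * (z.re ^ 2 + z.im ^ 2) + z.re ^ 2 - z.im ^ 2) :
    1 + r ≠ 0 ∧ Good z M ((1 + r) / z) := by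
  have hre := h.re
  have h1r : (1 : ℝ) ≤ ‖1 + r‖ := by
    calc (1 : ℝ) ≤ (1 + r).re := by simp; exact hre
      _ ≤ ‖1 + r‖ := Complex.re_le_norm _
  have h1r0 : 1 + r ≠ 0 := by
    intro h0; rw [h0] at h1r; simp at h1r; linarith
  have hz0 : z ≠ 0 := by
    intro h0; rw [h0] at hx; simp at hx
  have hzn : 0 < ‖z‖ := by linarith
  have hN : 0 < z.re ^ 2 + z.im ^ 2 := by positivity
  have hS : 0 < (1 + r.re) ^ 2 + r.im ^ 2 := by positivity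
  set x := z.re with hxd
  set y := z.im with hyd
  set p := r.re with hpd
  set q := r.im with hqd
  have hwre : ((1 + r) / z).re = ((1 + p) * x + q * y) / (x ^ 2 + y ^ 2) := by
    rw [Complex.div_re, Complex.normSq_apply]
    simp only [Complex.add_re, Complex.one_re, Complex.add_im, Complex.one_im, ← hxd, ← hyd,
      ← hpd, ← hqd]
    rw [← add_div]
    congr 1 <;> ring
  have hwim : ((1 + r) / z).im = (q * x - (1 + p) * y) / (x ^ 2 + y ^ 2) := by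
    rw [Complex.div_im, Complex.normSq_apply]
    simp only [Complex.add_re, Complex.one_re, Complex.add_im, Complex.one_im, ← hxd, ← hyd,
      ← hpd, ← hqd]
    rw [← sub_div]
    congr 1 <;> ring
  have hvre : (((1 + r) / z)⁻¹).re = (x * (1 + p) + y * q) / ((1 + p) ^ 2 + q ^ 2) := by
    rw [inv_div, Complex.div_re, Complex.normSq_apply]
    simp only [Complex.add_re, Complex.one_re, Complex.add_im, Complex.one_im, ← hxd, ← hyd,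
      ← hpd, ← hqd]
    rw [← add_div]
    congr 1 <;> ring
  have hvim : (((1 + r) / z)⁻¹).im = (y * (1 + p) - x * q) / ((1 + p) ^ 2 + q ^ 2) := by
    rw [inv_div, Complex.div_im, Complex.normSq_apply]
    simp only [Complex.add_re, Complex.one_re, Complex.add_im, Complex.one_im, ← hxd, ← hyd,
      ← hpd, ← hqd]
    rw [← sub_div]
    congr 1 <;> ring
  have hq : |q| ≤ M := le_trans (Complex.abs_im_le_norm r) h.le
  refine ⟨h1r0, ?_, ?_, ?_, ?_, ?_⟩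
  · rw [hwre]
    exact div_nonneg h.H hN.le
  · rw [norm_div, div_le_iff₀ hzn]
    have : ‖1 + r‖ ≤ 1 + M := le_trans (norm_add_le _ _) (by simpa using h.le)
    nlinarith
  · rw [inv_div, norm_div, div_le_iff₀ (by linarith)]
    nlinarith
  · rw [hwre, hwim]
    have key : 0 ≤ x * (x ^ 2 + y ^ 2) + (1 + p) * (x ^ 2 - y ^ 2) + 2 * q * x * y := by
      have h1 : 0 ≤ p * (x ^ 2 - y ^ 2) := mul_nonneg hre (by linarith)
      have h2 : -(2 * M * x * |y|) ≤ 2 * q * x * y := by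
        have h3 : |q * y| ≤ M * |y| := by
          rw [abs_mul]; exact mul_le_mul_of_nonneg_right hq (abs_nonneg _)
        have h4 := neg_abs_le (q * y)
        nlinarith
      nlinarith
    have e : (1 + ((1 + p) * x + q * y) / (x ^ 2 + y ^ 2)) * x +
        (q * x - (1 + p) * y) / (x ^ 2 + y ^ 2) * y =
        (x * (x ^ 2 + y ^ 2) + (1 + p) * (x ^ 2 - y ^ 2) + 2 * q * x * y) / (x ^ 2 + y ^ 2) := by
      field_simp
      ring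
    rw [e]
    exact div_nonneg key hN.le
  · rw [hvre, hvim]
    have e : (1 + (x * (1 + p) + y * q) / ((1 + p) ^ 2 + q ^ 2)) * x +
        (y * (1 + p) - x * q) / ((1 + p) ^ 2 + q ^ 2) * y =
        x + (x ^ 2 + y ^ 2) * (1 + p) / ((1 + p) ^ 2 + q ^ 2) := by
      field_simp
      ring
    rw [e]
    positivity

theorem poly1 {x : ℝ} (hx : 1.26 < x) (hx' : x ≤ 5) :
    0 ≤ 49 * x ^ 3 - 166 * x ^ 2 + 54 * x + 168 := by
  nlinarith [mul_nonneg (by linarith : (0 : ℝ) ≤ 49 * x + 37.84) (sq_nonneg (x - 2.08))]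

theorem poly2 {x : ℝ} (hx : 1.26 < x) :
    0 ≤ (x ^ 2 - 1) * (x ^ 3 + x ^ 2) - 1.572 * x - 1.8 * (6 * x - 6 - x ^ 2) := by
  obtain ⟨t, rfl⟩ : ∃ t, x = t + 1.26 := ⟨x - 1.26, by ring⟩
  have ht : 0 ≤ t := by linarith
  have c2 : 0 ≤ t ^ 2 := by positivity
  have c3 : 0 ≤ t ^ 3 := by positivity
  have c4 : 0 ≤ t ^ 4 := by positivity
  have c5 : 0 ≤ t ^ 5 := by positivity
  nlinarith

theorem poly3 {x : ℝ} (hx : 1.26 < x) :
    -1.8 ≤ (x ^ 3 + x ^ 2) + (x ^ 2 - 1) * (x - 1) - 131 / 30 * x := by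
  obtain ⟨t, rfl⟩ : ∃ t, x = t + 1.26 := ⟨x - 1.26, by ring⟩
  have ht : 0 ≤ t := by linarith
  have c2 : 0 ≤ t ^ 2 := by positivity
  have c3 : 0 ≤ t ^ 3 := by positivity
  nlinarith

theorem poly4 {x Y : ℝ} (hx : 1.26 < x) (hY0 : 0 ≤ Y) (hY : Y ≤ 6 * x - 6 - x ^ 2) :
    2.62 * (x * (5 / 3 * Y + 3 / 5)) ≤ (x ^ 2 + Y - 1) * (x * (x ^ 2 + Y) + x ^ 2 - Y) := by
  have b1 : 0 ≤ (x - 1) * Y ^ 2 := mul_nonneg (by linarith) (sq_nonneg _)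
  have b2 := poly3 hx
  have b3 := poly2 hx
  have b4 := mul_le_mul_of_nonneg_right b2 hY0
  have e : (x ^ 2 + Y - 1) * (x * (x ^ 2 + Y) + x ^ 2 - Y) - 2.62 * (x * (5 / 3 * Y + 3 / 5)) =
      ((x ^ 2 - 1) * (x ^ 3 + x ^ 2) - 1.572 * x) +
      ((x ^ 3 + x ^ 2) + (x ^ 2 - 1) * (x - 1) - 131 / 30 * x) * Y + (x - 1) * Y ^ 2 := by
    ring
  linarith

theorem case1 {x Y m : ℝ} (hx : 1.26 < x) (hx' : x ≤ 5) (hY : Y ^ 2 ≤ 6 * x - 6 - x ^ 2)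
    (hnn : m ^ 2 = x ^ 2 + Y ^ 2) :
    2 * m * x * Y ≤ x * (x ^ 2 + Y ^ 2) + x ^ 2 - Y ^ 2 := by
  have h1 : 2 * m * Y ≤ 4 / 7 * m ^ 2 + 7 / 4 * Y ^ 2 := by nlinarith [sq_nonneg (4 * m - 7 * Y)]
  have h2 : x * (2 * m * Y) ≤ x * (4 / 7 * m ^ 2 + 7 / 4 * Y ^ 2) :=
    mul_le_mul_of_nonneg_left h1 (by linarith)
  have h3 : x * (4 / 7 * m ^ 2 + 7 / 4 * Y ^ 2) ≤ x * (x ^ 2 + Y ^ 2) + x ^ 2 - Y ^ 2 := by
    rw [hnn]
    have h4 := poly1 hx hx'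
    nlinarith [mul_nonneg (by linarith : (0 : ℝ) ≤ x)
      (by linarith : (0 : ℝ) ≤ 6 * x - 6 - x ^ 2 - Y ^ 2)]
  linarith

theorem case2 {x Y m : ℝ} (hx : 1.26 < x) (hY : Y ^ 2 ≤ 6 * x - 6 - x ^ 2) (hm : 1.26 < m)
    (hnn : m ^ 2 = x ^ 2 + Y ^ 2) (hc : m * (m - 1) ≤ 1) :
    2 * x * Y ≤ (m - 1) * (x * (x ^ 2 + Y ^ 2) + x ^ 2 - Y ^ 2) := by
  have hm2 : m ≤ 1.62 := by nlinarith
  have h1 : 2 * Y ≤ 5 / 3 * Y ^ 2 + 3 / 5 := by nlinarith [sq_nonneg (5 * Y - 3)]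
  have h2 : x * (2 * Y) ≤ x * (5 / 3 * Y ^ 2 + 3 / 5) :=
    mul_le_mul_of_nonneg_left h1 (by linarith)
  have h3 : (x ^ 2 + Y ^ 2 - 1) ≤ 2.62 * (m - 1) := by nlinarith
  have h5 : 0 ≤ x * (x ^ 2 + Y ^ 2) + x ^ 2 - Y ^ 2 := by nlinarith [sq_nonneg Y]
  have h4 := poly4 hx (sq_nonneg Y) hY
  have h6 := mul_le_mul_of_nonneg_right h3 h5
  linarith

/-- geometry of the disc `|z - 3|^2 ≤ 3` -/
theorem disc_facts {z : ℂ} (hz : (z.re - 3) ^ 2 + z.im ^ 2 ≤ 3) :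
    0 < z.re ∧ z.im ^ 2 ≤ z.re ^ 2 ∧ 1 < ‖z‖ ∧
      ∃ M : ℝ, ‖z‖ ≤ M ∧ 1 ≤ M * (‖z‖ - 1) ∧
      2 * M * z.re * |z.im| ≤ z.re * (z.re ^ 2 + z.im ^ 2) + z.re ^ 2 - z.im ^ 2 := by
  set x := z.re with hxd
  set y := z.im with hyd
  have hx : 1.26 < x := by nlinarith [sq_nonneg y]
  have hx' : x ≤ 5 := by nlinarith [sq_nonneg y, sq_nonneg (x - 5)]
  have hY : y ^ 2 ≤ 6 * x - 6 - x ^ 2 := by nlinarith
  have hxy : y ^ 2 ≤ x ^ 2 := by nlinarith [sq_nonneg (2 * x - 3)]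
  have hnn : ‖z‖ ^ 2 = x ^ 2 + y ^ 2 := by
    rw [← Complex.normSq_eq_norm_sq, Complex.normSq_apply]; ring
  have hm0 : 0 ≤ ‖z‖ := norm_nonneg z
  set m := ‖z‖ with hmd
  have hm : 1.26 < m := by nlinarith [sq_nonneg y]
  refine ⟨by linarith, hxy, by linarith, ?_⟩
  rw [← sq_abs y] at hY hnn ⊢
  rcases le_total (1 / (m - 1)) m with hc | hc
  · refine ⟨m, le_refl _, ?_, ?_⟩
    · rw [div_le_iff₀ (by linarith)] at hc
      exact hc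
    · exact case1 hx hx' hY hnn
  · have hm1 : 0 < m - 1 := by linarith
    refine ⟨1 / (m - 1), hc, ?_, ?_⟩
    · rw [div_mul_cancel₀]; exact hm1.ne'
    · rw [le_div_iff₀ hm1] at hc
      have h := case2 hx hY hm hnn hc
      calc 2 * (1 / (m - 1)) * x * |y| = (2 * x * |y|) / (m - 1) := by ring
        _ ≤ _ := by
          rw [div_le_iff₀ hm1]; linarith

end Pool.Agent.N732.Stern
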