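import Mathlib
import Pool.Agent.N732.Stern.Defs
import Pool.Agent.N732.Stern.Geo

set_option autoImplicit false
open Polynomial

namespace Pool.Agent.N732.Stern

theorem no_zero_ratio {z : ℂ} (hz : (z.re - 3) ^ 2 + z.im ^ 2 ≤ 3) :
    ∃ M : ℝ, ∀ n : ℕ, 1 ≤ n → aeval z (sternPoly n) ≠ 0 ∧ aeval z (sternPoly (n + 1)) ≠ 0 ∧
      Good z M (aeval z (sternPoly (n + 1)) / aeval z (sternPoly n)) := by
  obtain ⟨hx, hxy, hm, M, hM, hM', hb⟩ := disc_facts hz
  have hz0 : z ≠ 0 := by
    intro h0; rw [h0] at hx; simp at hx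
  refine ⟨M, ?_⟩
  intro n
  induction n using Nat.strong_induction_on with
  | _ n ih =>
    intro hn
    rcases Nat.lt_or_ge n 2 with h2 | h2
    · have h1 : n = 1 := by omega
      subst h1
      have e2 : aeval z (sternPoly (1 + 1)) = z := by
        have := stern_even 1 (le_refl 1)
        rw [show 1 + 1 = 2 * 1 from rfl, this, stern_one]; simp
      rw [e2, stern_one]
      simp only [map_one, div_one]
      refine ⟨one_ne_zero, hz0, ?_⟩
      refine ⟨hx.le, hM, ?_, ?_, ?_⟩
      · rw [norm_inv]
        have : ‖z‖⁻¹ ≤ 1 := inv_le_one_of_one_le₀ hm.le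
        linarith
      · nlinarith [sq_nonneg z.re, sq_nonneg z.im]
      · rw [Complex.inv_re, Complex.inv_im]
        have hS : 0 < Complex.normSq z := Complex.normSq_pos.mpr hz0
        have e : (1 + z.re / Complex.normSq z) * z.re + -z.im / Complex.normSq z * z.im
            = z.re + (z.re ^ 2 - z.im ^ 2) / Complex.normSq z := by
          field_simp
          ring
        rw [e]
        have : 0 ≤ (z.re ^ 2 - z.im ^ 2) / Complex.normSq z := div_nonneg (by linarith) hS.le
        linarith
    · obtain ⟨k, hk⟩ := Nat.even_or_odd' n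
      have hk1 : 1 ≤ k := by omega
      have hkn : k < n := by omega
      obtain ⟨ha, hb', hg⟩ := ih k hkn hk1
      set a := aeval z (sternPoly k) with had
      set b := aeval z (sternPoly (k + 1)) with hbd
      rcases hk with hk | hk
      · subst hk
        rw [stern_even k hk1, stern_odd k hk1]
        simp only [map_add, map_mul, aeval_X, ← had, ← hbd]
        obtain ⟨h1, h2'⟩ := hg.step hx hxy hm hM hM' hb
        have e1 : 1 + b / a = (a + b) / a := by field_simp
        have hab : a + b ≠ 0 := by
          intro h0; rw [e1, h0] at h1; simp at h1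
        refine ⟨mul_ne_zero hz0 ha, hab, ?_⟩
        have e2 : (a + b) / (z * a) = (1 + b / a) / z := by field_simp
        rw [e2]; exact h2'
      · subst hk
        rw [show 2 * k + 1 + 1 = 2 * (k + 1) by ring, stern_even (k + 1) (by omega),
          stern_odd k hk1]
        simp only [map_add, map_mul, aeval_X, ← had, ← hbd]
        have hg' := hg.inv
        rw [inv_div] at hg'
        obtain ⟨h1, h2'⟩ := hg'.step hx hxy hm hM hM' hb
        have e1 : 1 + a / b = (a + b) / b := by field_simp; ring
        have hab : a + b ≠ 0 := by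
          intro h0; rw [e1, h0] at h1; simp at h1
        refine ⟨hab, mul_ne_zero hz0 hb', ?_⟩
        have e2 : z * b / (a + b) = ((1 + a / b) / z)⁻¹ := by
          rw [e1]; field_simp
        rw [e2]; exact h2'.inv

theorem no_zero {z : ℂ} (hz : (z.re - 3) ^ 2 + z.im ^ 2 ≤ 3) (n : ℕ) (hn : 1 ≤ n) :
    aeval z (sternPoly n) ≠ 0 := by
  obtain ⟨M, h⟩ := no_zero_ratio hz
  exact (h n hn).1

/-- every root `α` satisfies `‖1 - α‖ < ‖2 - α‖^2` -/
theorem root_ineq {z : ℂ} (n : ℕ) (hn : 1 ≤ n) (h : aeval z (sternPoly n) = 0) :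
    ‖1 - z‖ < ‖2 - z‖ ^ 2 := by
  have hz : 3 < (z.re - 3) ^ 2 + z.im ^ 2 := by
    by_contra hc
    exact no_zero (not_lt.mp hc) n hn h
  have h1 : ‖1 - z‖ ^ 2 = (z.re - 1) ^ 2 + z.im ^ 2 := by
    rw [← Complex.normSq_eq_norm_sq, Complex.normSq_apply]; simp; ring
  have h2 : ‖2 - z‖ ^ 2 = (z.re - 2) ^ 2 + z.im ^ 2 := by
    rw [← Complex.normSq_eq_norm_sq, Complex.normSq_apply]; simp; ring
  nlinarith [sq_nonneg (‖1 - z‖ - 1)]

theorem stern_eval_two (n : ℕ) : (sternPoly n).eval 2 = n := by
  induction n using Nat.strong_induction_on with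
  | _ n ih =>
    rcases Nat.lt_or_ge n 2 with h2 | h2
    · interval_cases n
      · simp [stern_zero]
      · simp [stern_one]
    · obtain ⟨k, hk⟩ := Nat.even_or_odd' n
      have hk1 : 1 ≤ k := by omega
      rcases hk with hk | hk
      · subst hk
        rw [stern_even k hk1, eval_mul, ih k (by omega)]; simp
      · subst hk
        rw [stern_odd k hk1, eval_add, ih k (by omega), ih (k + 1) (by omega)]; push_cast; ring

theorem stern_eval_one_pos (n : ℕ) (hn : 1 ≤ n) : 0 < (sternPoly n).eval 1 := by
  induction n using Nat.strong_induction_on with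
  | _ n ih =>
    rcases Nat.lt_or_ge n 2 with h2 | h2
    · have : n = 1 := by omega
      subst this; simp [stern_one]
    · obtain ⟨k, hk⟩ := Nat.even_or_odd' n
      have hk1 : 1 ≤ k := by omega
      rcases hk with hk | hk
      · subst hk
        rw [stern_even k hk1, eval_mul]; simpa using ih k (by omega) hk1
      · subst hk
        rw [stern_odd k hk1, eval_add]
        have h1 := ih k (by omega) hk1
        have h2 := ih (k + 1) (by omega) (by omega)
        linarith

theorem stern_coeff_zero (k : ℕ) : (sternPoly (2 * k + 1)).eval 0 = 1 := by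
  induction k using Nat.strong_induction_on with
  | _ k ih =>
    rcases Nat.lt_or_ge k 1 with h2 | h2
    · have : k = 0 := by omega
      subst this; simp [stern_one]
    · rw [stern_odd k h2, eval_add]
      obtain ⟨j, hj⟩ := Nat.even_or_odd' k
      rcases hj with hj | hj
      · subst hj
        rw [stern_even j (by omega), eval_mul, ih j (by omega)]; simp
      · subst hj
        rw [show 2 * j + 1 + 1 = 2 * (j + 1) by ring, stern_even (j + 1) (by omega), eval_mul,
          ih j (by omega)]; simp

theorem prod_lt_prod {s : Multiset ℂ} (f g : ℂ → ℝ) (hs : s ≠ 0)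
    (h0 : ∀ a ∈ s, 0 ≤ f a) (h : ∀ a ∈ s, f a < g a) :
    (s.map f).prod < (s.map g).prod := by
  induction s using Multiset.induction_on with
  | empty => exact absurd rfl hs
  | cons a s ih =>
    rw [Multiset.map_cons, Multiset.prod_cons, Multiset.map_cons, Multiset.prod_cons]
    have hfa := h0 a (Multiset.mem_cons_self a s)
    have hga := h a (Multiset.mem_cons_self a s)
    have hps : 0 ≤ (s.map f).prod := by
      apply Multiset.prod_nonneg
      intro b hb
      rw [Multiset.mem_map] at hb
      obtain ⟨c, hc, rfl⟩ := hb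
      exact h0 c (Multiset.mem_cons_of_mem hc)
    rcases eq_or_ne s 0 with hs0 | hs0
    · subst hs0; simpa using hga
    · have := ih hs0 (fun b hb => h0 b (Multiset.mem_cons_of_mem hb))
        (fun b hb => h b (Multiset.mem_cons_of_mem hb))
      nlinarith

/-- a nonconstant integer factor of `B_n` has `|f(2)| > 1` -/
theorem factor_big {n : ℕ} (hn : 1 ≤ n) {f : ℤ[X]} (hf : f ∣ sternPoly n) (hd : f.natDegree ≠ 0) :
    1 < |f.eval 2| := by
  have hB0 : sternPoly n ≠ 0 := by
    intro h; have := stern_eval_one_pos n hn; rw [h] at this; simp at this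
  have hf0 : f ≠ 0 := by
    rintro rfl; simp at hd
  obtain ⟨g, hg⟩ := hf
  set F : ℂ[X] := f.map (Int.castRingHom ℂ) with hF
  have hinj : Function.Injective (Int.castRingHom ℂ) := Int.cast_injective
  have hF0 : F ≠ 0 := (Polynomial.map_ne_zero_iff hinj).mpr hf0
  have hdeg : F.natDegree = f.natDegree := Polynomial.natDegree_map_eq_of_injective hinj f
  have hlc : F.leadingCoeff = (f.leadingCoeff : ℂ) := by
    rw [hF, Polynomial.leadingCoeff_map_of_injective hinj]; simp
  have hs : F.Splits := IsAlgClosed.splits F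
  have hcard : F.roots.card = F.natDegree := Polynomial.splits_iff_card_roots.mp hs
  have hne : F.roots ≠ 0 := by
    intro h; rw [h] at hcard; simp at hcard; omega
  have hroot : ∀ a ∈ F.roots, ‖1 - a‖ < ‖2 - a‖ ^ 2 := by
    intro a ha
    apply root_ineq n hn
    rw [Polynomial.mem_roots hF0, Polynomial.IsRoot.def] at ha
    have : aeval a f = 0 := by
      rw [Polynomial.aeval_def, ← Polynomial.eval_map]; exact ha
    rw [hg, map_mul, this, zero_mul]
  have hprod := prod_lt_prod (fun a => ‖1 - a‖) (fun a => ‖2 - a‖ ^ 2) hne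
    (fun a _ => norm_nonneg _) hroot
  have e1 : (‖(1 : ℂ)‖ : ℝ) = 1 := norm_one
  have ev1 : ‖F.eval 1‖ = ‖F.leadingCoeff‖ * (F.roots.map (fun a => ‖1 - a‖)).prod := by
    rw [hs.eval_eq_prod_roots, norm_mul]
    congr 1
    have := map_multiset_prod (normHom : ℂ →*₀ ℝ) (F.roots.map (fun a => 1 - a))
    simp only [Multiset.map_map, Function.comp_def] at this
    exact this
  have ev2 : ‖F.eval 2‖ = ‖F.leadingCoeff‖ * (F.roots.map (fun a => ‖2 - a‖)).prod := by
    rw [hs.eval_eq_prod_roots, norm_mul]
    congr 1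
    have := map_multiset_prod (normHom : ℂ →*₀ ℝ) (F.roots.map (fun a => 2 - a))
    simp only [Multiset.map_map, Function.comp_def] at this
    exact this
  have hpow : (F.roots.map (fun a => ‖2 - a‖ ^ 2)).prod =
      ((F.roots.map (fun a => ‖2 - a‖)).prod) ^ 2 := by
    rw [← Multiset.prod_map_pow]
  rw [hpow] at hprod
  -- values at integers
  have hv1 : F.eval 1 = ((f.eval 1 : ℤ) : ℂ) := by
    rw [hF]
    have := Polynomial.eval_map_apply (Int.castRingHom ℂ) (p := f) (1 : ℤ)
    simpa using this
  have hv2 : F.eval 2 = ((f.eval 2 : ℤ) : ℂ) := by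
    rw [hF]
    have := Polynomial.eval_map_apply (Int.castRingHom ℂ) (p := f) (2 : ℤ)
    simpa using this
  have hf1 : f.eval 1 ≠ 0 := by
    intro h
    have := stern_eval_one_pos n hn
    rw [hg, eval_mul, h, zero_mul] at this
    exact lt_irrefl _ this
  have hf1' : (1 : ℝ) ≤ ‖F.eval 1‖ := by
    rw [hv1, Complex.norm_intCast]
    exact_mod_cast Int.one_le_abs hf1
  have hlc1 : (1 : ℝ) ≤ ‖F.leadingCoeff‖ := by
    rw [hlc, Complex.norm_intCast]
    exact_mod_cast Int.one_le_abs (Polynomial.leadingCoeff_ne_zero.mpr hf0)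
  have hfin : 1 < ‖F.eval 2‖ ^ 2 := by
    set L := ‖F.leadingCoeff‖
    set P := (F.roots.map (fun a => ‖1 - a‖)).prod
    set Q := (F.roots.map (fun a => ‖2 - a‖)).prod
    rw [ev2]
    rw [ev1] at hf1'
    have : L * (L * P) < L * (L * Q ^ 2) := by
      apply mul_lt_mul_of_pos_left _ (by linarith)
      exact mul_lt_mul_of_pos_left hprod (by linarith)
    nlinarith
  rw [hv2, Complex.norm_intCast] at hfin
  by_contra hc
  have h1 : |f.eval 2| ≤ 1 := not_lt.mp hc
  have h2 : (|((f.eval 2 : ℤ) : ℝ)|) ≤ 1 := by exact_mod_cast h1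
  have h3 : 0 ≤ |((f.eval 2 : ℤ) : ℝ)| := abs_nonneg _
  nlinarith

theorem stern_irreducible_int {p : ℕ} (hp : p.Prime) (hp2 : p ≠ 2) : Irreducible (sternPoly p) := by
  have hodd := hp.odd_of_ne_two hp2
  obtain ⟨k, hk⟩ := hodd
  have hc0 : (sternPoly p).eval 0 = 1 := by rw [hk]; exact stern_coeff_zero k
  have hp1 : 1 ≤ p := hp.one_lt.le
  have h2 := stern_eval_two p
  -- a factor of degree zero is a unit
  have hunit : ∀ f g : ℤ[X], sternPoly p = f * g → f.natDegree = 0 → IsUnit f := by
    intro f g h hd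
    rw [Polynomial.natDegree_eq_zero] at hd
    obtain ⟨c, rfl⟩ := hd
    have h3 : c * g.eval 0 = 1 := by
      have := congrArg (Polynomial.eval 0) h
      rw [hc0, eval_mul, eval_C] at this
      exact this.symm
    exact Polynomial.isUnit_C.mpr (IsUnit.of_mul_eq_one _ h3)
  constructor
  · intro hu
    have := hu.map (Polynomial.evalRingHom (2 : ℤ))
    rw [Polynomial.coe_evalRingHom, h2, Int.isUnit_iff] at this
    have h3 := hp.one_lt
    omega
  · intro f g h
    have hfg : f.eval 2 * g.eval 2 = p := by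
      rw [← h2, h, eval_mul]
    have hpp : Prime (p : ℤ) := Nat.prime_iff_prime_int.mp hp
    have hirr := hpp.irreducible
    rcases hirr.isUnit_or_isUnit hfg.symm with hu | hu
    · left
      apply hunit f g h
      by_contra hd
      have := factor_big hp1 ⟨g, h⟩ hd
      rw [Int.isUnit_iff_abs_eq] at hu
      omega
    · right
      apply hunit g f (by rw [h, mul_comm])
      by_contra hd
      have := factor_big hp1 ⟨f, by rw [h, mul_comm]⟩ hd
      rw [Int.isUnit_iff_abs_eq] at hu
      omega

theorem stern_irreducible {p : ℕ} (hp : p.Prime) :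
    Irreducible ((sternPoly p).map (Int.castRingHom ℚ)) := by
  by_cases hp2 : p = 2
  · subst hp2
    have := stern_even 1 (le_refl 1)
    rw [show 2 * 1 = 2 from rfl, stern_one, mul_one] at this
    rw [this, Polynomial.map_X]
    exact Polynomial.irreducible_X
  · have hirr := stern_irreducible_int hp hp2
    obtain ⟨k, hk⟩ := hp.odd_of_ne_two hp2
    have hc0 : (sternPoly p).eval 0 = 1 := by rw [hk]; exact stern_coeff_zero k
    have hprim : (sternPoly p).IsPrimitive := by
      intro c hc
      obtain ⟨g, hg⟩ := hc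
      have := congrArg (Polynomial.eval 0) hg
      rw [hc0, eval_mul, eval_C] at this
      exact IsUnit.of_mul_eq_one _ this.symm
    exact (Polynomial.IsPrimitive.Int.irreducible_iff_irreducible_map_cast hprim).mp hirr

end Pool.Agent.N732.Stern
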