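import Mathlib
import Pool.Agent.N732.Stern.Main

set_option autoImplicit false
open Polynomial

namespace Pool.Agent.N732.Stern

theorem unique_stern (B : ℕ → ℤ[X]) (h0 : B 0 = 0) (h1 : B 1 = 1)
    (he : ∀ n : ℕ, 1 ≤ n → B (2 * n) = X * B n)
    (ho : ∀ n : ℕ, 1 ≤ n → B (2 * n + 1) = B n + B (n + 1)) (n : ℕ) : B n = sternPoly n := by
  induction n using Nat.strong_induction_on with
  | _ n ih =>
    rcases Nat.lt_or_ge n 2 with h2 | h2
    · interval_cases n
      · rw [h0, stern_zero]
      · rw [h1, stern_one]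
    · obtain ⟨k, hk⟩ := Nat.even_or_odd' n
      have hk1 : 1 ≤ k := by omega
      rcases hk with hk | hk
      · subst hk
        rw [stern_even k hk1, he k hk1, ih k (by omega)]
      · subst hk
        rw [stern_odd k hk1, ho k hk1, ih k (by omega), ih (k + 1) (by omega)]

end Pool.Agent.N732.Stern
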