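import Mathlib
import Pool.Agent.N732.Stern.Unique

set_option autoImplicit false
open Polynomial

namespace Pool.Agent.N732.Stern

/-- no zero of a Stern polynomial in `0 < |t| ≤ 1/4` -/
theorem no_small_root {t : ℚ} (ht0 : t ≠ 0) (ht : |t| ≤ 1 / 4) (n : ℕ) (hn : 1 ≤ n) :
    aeval t (sternPoly n) ≠ 0 ∧ aeval t (sternPoly (n + 1)) ≠ 0 ∧
      (2 * |aeval t (sternPoly n)| ≤ |aeval t (sternPoly (n + 1))| ∨
        2 * |aeval t (sternPoly (n + 1))| ≤ |aeval t (sternPoly n)|) := by
  induction n using Nat.strong_induction_on with
  | _ n ih =>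
    rcases Nat.lt_or_ge n 2 with h2 | h2
    · have h1 : n = 1 := by omega
      subst h1
      have e2 : aeval t (sternPoly (1 + 1)) = t := by
        have := stern_even 1 (le_refl 1)
        rw [show 1 + 1 = 2 * 1 from rfl, this, stern_one]; simp
      rw [e2, stern_one]
      simp only [map_one, abs_one]
      refine ⟨one_ne_zero, ht0, Or.inr ?_⟩
      linarith
    · obtain ⟨k, hk⟩ := Nat.even_or_odd' n
      have hk1 : 1 ≤ k := by omega
      obtain ⟨ha, hb, hg⟩ := ih k (by omega) hk1
      set a := aeval t (sternPoly k) with had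
      set b := aeval t (sternPoly (k + 1)) with hbd
      have hta : 0 ≤ |t| := abs_nonneg t
      have hpa : 0 < |a| := abs_pos.mpr ha
      have hpb : 0 < |b| := abs_pos.mpr hb
      have hab1 : |a| - |b| ≤ |a + b| := by
        have := abs_sub_abs_le_abs_sub a (-b)
        rw [abs_neg, sub_neg_eq_add] at this; exact this
      have hab2 : |b| - |a| ≤ |a + b| := by
        have := abs_sub_abs_le_abs_sub b (-a)
        rw [abs_neg, sub_neg_eq_add, add_comm b a] at this; exact this
      have hA : |a| ≤ 2 * |a + b| := by
        rcases hg with h | h <;> linarith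
      have hB : |b| ≤ 2 * |a + b| := by
        rcases hg with h | h <;> linarith
      have hne : a + b ≠ 0 := by
        intro h0; rw [h0, abs_zero] at hA; linarith
      rcases hk with hk | hk
      · subst hk
        rw [stern_even k hk1, stern_odd k hk1]
        simp only [map_add, map_mul, aeval_X, ← had, ← hbd]
        refine ⟨mul_ne_zero ht0 ha, hne, Or.inl ?_⟩
        rw [abs_mul]
        nlinarith
      · subst hk
        rw [show 2 * k + 1 + 1 = 2 * (k + 1) by ring, stern_even (k + 1) (by omega),
          stern_odd k hk1]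
        simp only [map_add, map_mul, aeval_X, ← had, ← hbd]
        refine ⟨hne, mul_ne_zero ht0 hb, Or.inr ?_⟩
        rw [abs_mul]
        nlinarith

theorem stern_pos {t : ℚ} (ht : 0 < t) (n : ℕ) (hn : 1 ≤ n) : 0 < aeval t (sternPoly n) := by
  induction n using Nat.strong_induction_on with
  | _ n ih =>
    rcases Nat.lt_or_ge n 2 with h2 | h2
    · have : n = 1 := by omega
      subst this; simp [stern_one]
    · obtain ⟨k, hk⟩ := Nat.even_or_odd' n
      have hk1 : 1 ≤ k := by omega
      rcases hk with hk | hk
      · subst hk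
        rw [stern_even k hk1, map_mul, aeval_X]
        exact mul_pos ht (ih k (by omega) hk1)
      · subst hk
        rw [stern_odd k hk1, map_add]
        have h1 := ih k (by omega) hk1
        have h2 := ih (k + 1) (by omega) (by omega)
        linarith

theorem odd_root {a : ℚ} (k : ℕ) (h : aeval a (sternPoly (2 * k + 1)) = 0) :
    a = -1 ∨ a = -1 / 2 ∨ a = -1 / 3 := by
  have h1 := num_dvd_of_is_root h
  rw [Polynomial.coeff_zero_eq_eval_zero, stern_coeff_zero] at h1
  have hu : IsUnit (IsFractionRing.num ℤ a) := isUnit_of_dvd_one h1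
  have hq := IsFractionRing.mk'_num_den' (A := ℤ) a
  have hden : (IsFractionRing.den ℤ a : ℤ) ≠ 0 := nonZeroDivisors.coe_ne_zero _
  obtain ⟨m, hm0, hm⟩ : ∃ m : ℤ, m ≠ 0 ∧ a = 1 / (m : ℚ) := by
    rcases Int.isUnit_iff.mp hu with h2 | h2
    · refine ⟨(IsFractionRing.den ℤ a : ℤ), hden, ?_⟩
      rw [h2] at hq
      simp only [map_one, algebraMap_int_eq, eq_intCast] at hq
      exact hq.symm
    · refine ⟨-(IsFractionRing.den ℤ a : ℤ), neg_ne_zero.mpr hden, ?_⟩
      rw [h2] at hq
      simp only [map_neg, map_one, algebraMap_int_eq, eq_intCast] at hq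
      push_cast
      rw [← neg_div_neg_eq 1, neg_neg]
      exact hq.symm
  have hmneg : m < 0 := by
    by_contra hc
    have hmpos : 0 < m := by omega
    have hapos : 0 < a := by rw [hm]; positivity
    have := stern_pos hapos (2 * k + 1) (by omega)
    rw [h] at this; exact lt_irrefl _ this
  have hm4 : -4 < m := by
    by_contra hc
    have hmle : m ≤ -4 := by omega
    have ha0 : a ≠ 0 := by rw [hm]; simp [hm0]
    have habs : |a| ≤ 1 / 4 := by
      rw [hm, abs_div, abs_one]
      apply one_div_le_one_div_of_le (by norm_num)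
      rw [abs_of_neg (by exact_mod_cast hmneg)]
      have : (m : ℚ) ≤ -4 := by exact_mod_cast hmle
      linarith
    exact (no_small_root ha0 habs (2 * k + 1) (by omega)).1 h
  have : m = -1 ∨ m = -2 ∨ m = -3 := by omega
  rcases this with h3 | h3 | h3
  · left; rw [hm, h3]; norm_num
  · right; left; rw [hm, h3]; norm_num
  · right; right; rw [hm, h3]; norm_num

theorem rat_root {a : ℚ} (n : ℕ) (hn : 1 ≤ n) (h : aeval a (sternPoly n) = 0) :
    a = -1 ∨ a = -1 / 2 ∨ a = -1 / 3 ∨ a = 0 := by
  induction n using Nat.strong_induction_on with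
  | _ n ih =>
    obtain ⟨k, hk⟩ := Nat.even_or_odd' n
    rcases hk with hk | hk
    · subst hk
      have hk1 : 1 ≤ k := by omega
      rw [stern_even k hk1, map_mul, aeval_X, mul_eq_zero] at h
      rcases h with h | h
      · right; right; right; exact h
      · exact ih k (by omega) hk1 h
    · subst hk
      rcases odd_root k h with h | h | h
      · left; exact h
      · right; left; exact h
      · right; right; left; exact h

theorem stern_two : sternPoly 2 = X := by
  have := stern_even 1 (le_refl 1)
  rw [stern_one] at this; simpa using this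
theorem stern_three : sternPoly 3 = 1 + X := by
  have := stern_odd 1 (le_refl 1); norm_num at this; rw [this, stern_one, stern_two]
theorem stern_five : sternPoly 5 = 1 + 2 * X := by
  have := stern_odd 2 (by norm_num); norm_num at this; rw [this, stern_two, stern_three]; ring
theorem stern_six : sternPoly 6 = X * (1 + X) := by
  have := stern_even 3 (by norm_num); norm_num at this; rw [this, stern_three]
theorem stern_ten : sternPoly 10 = X * (1 + 2 * X) := by
  have := stern_even 5 (by norm_num); norm_num at this; rw [this, stern_five]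
theorem stern_eleven : sternPoly 11 = 1 + 3 * X + X ^ 2 := by
  have := stern_odd 5 (by norm_num); norm_num at this; rw [this, stern_five, stern_six]; ring
theorem stern_twentyone : sternPoly 21 = 1 + 4 * X + 3 * X ^ 2 := by
  have := stern_odd 10 (by norm_num); norm_num at this; rw [this, stern_ten, stern_eleven]; ring

theorem rational_roots :
    {a : ℚ | ∃ n : ℕ, 1 ≤ n ∧ aeval a (sternPoly n) = 0} = {-1, -1 / 2, -1 / 3, 0} := by
  ext a
  simp only [Set.mem_ofPred_eq, Set.mem_insert_iff, Set.mem_singleton_iff]
  constructor
  · rintro ⟨n, hn, h⟩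
    exact rat_root n hn h
  · rintro (h | h | h | h)
    · exact ⟨3, by norm_num, by rw [h, stern_three]; simp⟩
    · exact ⟨5, by norm_num, by
        rw [h, stern_five]
        simp only [map_add, map_one, map_mul, aeval_X, map_ofNat]; norm_num⟩
    · exact ⟨21, by norm_num, by
        rw [h, stern_twentyone]
        simp only [map_add, map_one, map_mul, map_pow, aeval_X, map_ofNat]; norm_num⟩
    · exact ⟨2, by norm_num, by rw [h, stern_two]; simp⟩

end Pool.Agent.N732.Stern
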